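import Mathlib

/-!
# Coordinate complements of a subspace
-/

set_option autoImplicit false

namespace Pool.Agent.Helper38.Six

/-- a linear map from a coordinate space is injective on some coordinate subspace whose dimension
is its rank -/
theorem exists_axes {F : Type} [Field F] {ρ : Type} [Fintype ρ] [DecidableEq ρ] {V : Type}
    [AddCommGroup V] [Module F V] (f : (ρ → F) →ₗ[F] V) :
    ∃ Cx : Finset ρ, Cx.card = Module.finrank F (LinearMap.range f) ∧
      ∀ x : ρ → F, (∀ k, k ∉ Cx → x k = 0) → f x = 0 → x = 0 := by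
  classical
  let v : ρ → V := fun k => f (Pi.single k 1)
  have hfx : ∀ x : ρ → F, f x = ∑ k, x k • v k := by
    intro x
    conv_lhs => rw [← Finset.univ_sum_single x, map_sum]
    refine Finset.sum_congr rfl fun k _ => ?_
    have : Pi.single k (x k) = x k • (Pi.single k 1 : ρ → F) := by
      rw [← Pi.single_smul, smul_eq_mul, mul_one]
    rw [this, map_smul]
  obtain ⟨κ, a, ha, hsp, hli⟩ := exists_linearIndependent' F v
  have : Fintype κ := Fintype.ofInjective a ha
  have hrange : Submodule.span F (Set.range v) = LinearMap.range f := by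
    apply le_antisymm
    · rw [Submodule.span_le]
      rintro _ ⟨k, rfl⟩
      exact ⟨_, rfl⟩
    · rintro _ ⟨x, rfl⟩
      rw [hfx]
      exact Submodule.sum_mem _ fun k _ => Submodule.smul_mem _ _ (Submodule.subset_span ⟨k, rfl⟩)
  refine ⟨Finset.univ.image a, ?_, ?_⟩
  · rw [Finset.card_image_of_injective _ ha, Finset.card_univ, ← hrange, ← hsp,
      finrank_span_eq_card hli]
  · intro x hx hfx0
    rw [hfx] at hfx0
    have h1 := Fintype.linearIndependent_iff.1 hli (fun c => x (a c)) (by
      rw [← hfx0]
      have h2 : ∑ k, x k • v k = ∑ k ∈ Finset.univ.image a, x k • v k := by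
        symm
        apply Finset.sum_subset (Finset.subset_univ _)
        intro k _ hk
        rw [hx k hk, zero_smul]
      rw [h2, Finset.sum_image (fun _ _ _ _ h => ha h)]
      rfl)
    funext k
    by_cases hk : k ∈ Finset.univ.image a
    · obtain ⟨c, _, rfl⟩ := Finset.mem_image.1 hk
      exact h1 c
    · exact hx k hk

/-- complement by coordinate axes of a subspace -/
theorem exists_axes_sub {F : Type} [Field F] {ρ : Type} [Fintype ρ] [DecidableEq ρ]
    (N : Submodule F (ρ → F)) :
    ∃ Cx : Finset ρ, Cx.card + Module.finrank F N = Fintype.card ρ ∧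
      ∀ x : ρ → F, (∀ k, k ∉ Cx → x k = 0) → x ∈ N → x = 0 := by
  obtain ⟨Cx, hc, hx⟩ := exists_axes N.mkQ
  refine ⟨Cx, ?_, fun x h1 h2 => hx x h1 (by simpa using h2)⟩
  rw [hc, Submodule.range_mkQ, finrank_top, Submodule.finrank_quotient_add_finrank,
    Module.finrank_fintype_fun_eq_card]

end Pool.Agent.Helper38.Six
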