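import Pool.Agent.Helper17.Trs2.Defs

/-!
# The linear subgroup theorem with arbitrary finite index types
-/

set_option autoImplicit false

namespace Pool.Agent.Helper38.Six

open _root_.Trs

/-- reindexing keeps linear independence -/
theorem ind_reindex {R : Type} [CommRing R] {ι : Type} {n c : ℕ} (e : ι ≃ Fin n)
    (v : Fin c → Fin n → R) (hv : LinearIndependent R v) :
    LinearIndependent R (fun j (i : ι) => v j (e i)) := by
  have h := hv.map' (LinearMap.funLeft R R e) (by
    apply LinearMap.ker_eq_bot_of_injective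
    intro f g hfg
    funext i
    have := congrFun hfg (e.symm i)
    simpa [LinearMap.funLeft] using this)
  exact h

/-- **Main** with arbitrary finite index types. -/
theorem main_types (hM : Trs2.S_Main) {ι μ ρ : Type} [Fintype ι] [DecidableEq ι] [Fintype μ]
    [DecidableEq μ] [Fintype ρ] [DecidableEq ρ] (tor : ι → Bool) (γ : μ → ι → ℂ) (w : ρ → ι → ℂ)
    (φ : ι → ℂ) (hφ : φ ≠ 0) (h1 : ∀ k, ∑ i, φ i * γ k i = 0) (h2 : ∀ k, ∑ i, φ i * w k i = 0)
    (h3 : ∀ k i, IsAlgebraic ℚ (if tor i then Complex.exp (γ k i) else γ k i))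
    (h4 : ∀ k i, IsAlgebraic ℚ (w k i)) (u a d s t : ℕ) (hau : a < u) (hds : d + s + 1 < u)
    (htu : t + 1 < u) (hsum : (Fintype.card ι - 1) * u < ∑ i, if tor i then d else a)
    (hshape : ∀ (ca cm : ℕ) (lam : Fin ca → ι → ℂ) (mu : Fin cm → ι → ℤ),
      LinearIndependent ℂ lam → LinearIndependent ℤ mu →
      (∀ j i, tor i = true → lam j i = 0) → (∀ j i, tor i = false → mu j i = 0) → 0 < ca + cm →
      ∃ (Ax : Finset μ) (Cx : Finset ρ),
        (∀ g : μ → ℤ, (∀ k, k ∉ Ax → g k = 0) →
          (∀ j, ∑ i, lam j i * ∑ k, (g k : ℂ) * γ k i = 0) →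
          (∀ j, Complex.exp (∑ i, (mu j i : ℂ) * ∑ k, (g k : ℂ) * γ k i) = 1) → g = 0) ∧
        (∀ x : ρ → ℂ, (∀ k, k ∉ Cx → x k = 0) →
          (∀ j, ∑ i, lam j i * (∑ k, x k * w k i) = 0) →
          (∀ j, ∑ i, (mu j i : ℂ) * (∑ k, x k * w k i) = 0) → x = 0) ∧
        a * ca + d * cm < s * Ax.card + t * Cx.card) : False := by
  classical
  let eι := Fintype.equivFin ι
  let eμ := Fintype.equivFin μ
  let eρ := Fintype.equivFin ρ
  refine hM (Fintype.card ι) (Fintype.card μ) (Fintype.card ρ) (fun i => tor (eι.symm i))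
    (fun k i => γ (eμ.symm k) (eι.symm i)) (fun k i => w (eρ.symm k) (eι.symm i))
    (fun i => φ (eι.symm i)) ?_ ?_ ?_ ?_ ?_ u a d s t hau hds htu ?_ ?_
  · intro h
    apply hφ
    funext i
    have := congrFun h (eι i)
    simpa using this
  · intro k
    rw [← h1 (eμ.symm k)]
    exact Fintype.sum_equiv eι.symm _ _ fun i => rfl
  · intro k
    rw [← h2 (eρ.symm k)]
    exact Fintype.sum_equiv eι.symm _ _ fun i => rfl
  · intro k i
    exact h3 _ _
  · intro k i
    exact h4 _ _
  · have h5 : ∑ i, ex (fun i => tor (eι.symm i)) a d i = ∑ i, if tor i then d else a := by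
      refine Fintype.sum_equiv eι.symm _ _ fun i => ?_
      simp [ex]
    rw [h5]
    exact hsum
  · intro ca cm lam mu hlam hmu hsl hsm h0
    obtain ⟨Ax, Cx, hA, hC, hlt⟩ := hshape ca cm (fun j i => lam j (eι i)) (fun j i => mu j (eι i))
      (ind_reindex eι lam hlam) (ind_reindex eι mu hmu)
      (fun j i hi => hsl j (eι i) (by simpa using hi))
      (fun j i hi => hsm j (eι i) (by simpa using hi)) h0
    refine ⟨Ax.map eμ.toEmbedding, Cx.map eρ.toEmbedding, ?_, ?_, ?_⟩
    · intro g hg hg1 hg2
      have hgp : ∀ i, gp (fun k i => γ (eμ.symm k) (eι.symm i)) g i =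
          ∑ k : μ, ((g (eμ k) : ℤ) : ℂ) * γ k (eι.symm i) := by
        intro i
        simp only [gp, Finset.sum_apply, Pi.smul_apply, smul_eq_mul]
        refine (Fintype.sum_equiv eμ _ _ fun k => ?_).symm
        simp
      have key := hA (fun k => g (eμ k)) (by
        intro k hk
        apply hg
        simpa using hk) (by
        intro j
        rw [← hg1 j]
        refine Fintype.sum_equiv eι _ _ fun i => ?_
        rw [hgp]
        simp) (by
        intro j
        rw [← hg2 j]
        congr 1
        refine Fintype.sum_equiv eι _ _ fun i => ?_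
        rw [hgp]
        simp)
      funext k
      have := congrFun key (eμ.symm k)
      simpa using this
    · intro x hx hx1 hx2
      have hw : ∀ i, ∑ k, x k * w (eρ.symm k) (eι.symm i) =
          ∑ k : ρ, x (eρ k) * w k (eι.symm i) := by
        intro i
        refine (Fintype.sum_equiv eρ _ _ fun k => ?_).symm
        simp
      have key := hC (fun k => x (eρ k)) (by
        intro k hk
        apply hx
        simpa using hk) (by
        intro j
        rw [← hx1 j]
        refine Fintype.sum_equiv eι _ _ fun i => ?_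
        rw [hw]
        simp) (by
        intro j
        rw [← hx2 j]
        refine Fintype.sum_equiv eι _ _ fun i => ?_
        rw [hw]
        simp)
      funext k
      have := congrFun key (eρ.symm k)
      simpa using this
    · simpa using hlt

end Pool.Agent.Helper38.Six
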